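import Pool.Agent.Helper53.QFinal

set_option autoImplicit false

namespace Pool.Agent.Results.MP_5ca353_nt.SquareCongruences

open Polynomial

/-- the field of rational functions in `q`, as the field of fractions of `ℤ[q]` -/
abbrev K : Type := FractionRing (Polynomial ℤ)

/-- the indeterminate `q` -/
noncomputable def q : K := algebraMap (Polynomial ℤ) K X

/-- the q-Pochhammer symbol `(a; b)_k` -/
noncomputable def poch (a b : K) (k : ℕ) : K := ∏ j ∈ Finset.range k, (1 - a * b ^ j)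

/-- `A_k(q) = (q; q^2)_k / (q^2; q^2)_k` -/
noncomputable def A (k : ℕ) : K := poch q (q ^ 2) k / poch (q ^ 2) (q ^ 2) k

/-- `B_k(q) = (q^2; q^4)_k / (q^4; q^4)_k` -/
noncomputable def B (k : ℕ) : K := poch (q ^ 2) (q ^ 4) k / poch (q ^ 4) (q ^ 4) k

/-- `c_k(q) = A_k(q)^2 B_k(q) q^(2k)` -/
noncomputable def c (k : ℕ) : K := A k ^ 2 * B k * q ^ (2 * k)

/-- `S_N(q)`, the sum of `c_k(q)` over `0 ≤ k ≤ N` -/
noncomputable def S (N : ℕ) : K := ∑ k ∈ Finset.range (N + 1), c k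

/-- `F ≡ 0 (mod P)`: in lowest terms `F = a / b` over `ℤ[q]`, the denominator `b` is coprime
to `P` and `P` divides the numerator `a` -/
def CongZero (F : K) (P : Polynomial ℤ) : Prop :=
  ∃ a b : Polynomial ℤ, b ≠ 0 ∧
    F = algebraMap (Polynomial ℤ) K a / algebraMap (Polynomial ℤ) K b ∧
    IsRelPrime a b ∧ IsRelPrime b P ∧ P ∣ a

/-- Both truncations are `≡ 0` modulo the square of the `n`-th cyclotomic polynomial. -/
theorem result : ∀ n : ℕ, n % 4 = 3 → ∀ r : ℕ, 1 ≤ r →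
    CongZero (S (r * n - 1)) (cyclotomic n ℤ ^ 2) ∧
    CongZero (S (r * n + (n - 1) / 2)) (cyclotomic n ℤ ^ 2) := by
  intro n h r hr
  have hS : ∀ N, S N = ∑ k ∈ Finset.range (N + 1), Pool.Agent.Helper53.QC.cc k := fun N =>
    Finset.sum_congr rfl fun k _ => (Pool.Agent.Helper53.QC.cc_closed k).symm
  obtain ⟨h1, h2⟩ := Pool.Agent.Helper53.QC.final_cong n h r hr
  rw [hS, hS]
  exact ⟨h1, h2⟩

end Pool.Agent.Results.MP_5ca353_nt.SquareCongruences
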